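import Mathlib

/-!
# Convolution semigroups on the dual of a locally compact quantum group: definitions
-/

set_option autoImplicit false

open Filter Topology Set
open scoped ComplexOrder

namespace Pool.Agent.K3h48.QG

universe u v w

/-- A state of the C*-algebra `A`: a positive linear functional of norm one. -/
def IsState {A : Type u} [NonUnitalCStarAlgebra A] (μ : A →L[ℂ] ℂ) : Prop :=
  (∀ a : A, 0 ≤ μ (star a * a)) ∧ ‖μ‖ = 1

/-- The data: `A = C₀ᵘ(Ĝ)`, `R = C₀(Ĝ)` and `M = L^∞(Ĝ)`; the reducing morphism `Λ : A → R`, the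
inclusion `ι : R → M`, the space `normal` of the normal functionals on `M` (the predual `L¹(Ĝ)`), the
slice maps `slice ν a = (id ⊗ ν)(Δᵤ(a))` of the comultiplication `Δᵤ` of `A`, and the counit `ε` of
`A`. -/
structure Data (A : Type u) (R : Type v) (M : Type w) [NonUnitalCStarAlgebra A]
    [NonUnitalCStarAlgebra R] [NonUnitalCStarAlgebra M] where
  Λ : A →L[ℂ] R
  ι : R →L[ℂ] M
  normal : Submodule ℂ (M →L[ℂ] ℂ)
  slice : (A →L[ℂ] ℂ) →L[ℂ] A →L[ℂ] A
  ε : A →L[ℂ] ℂ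

namespace Data

variable {A : Type u} {R : Type v} {M : Type w} [NonUnitalCStarAlgebra A]
  [NonUnitalCStarAlgebra R] [NonUnitalCStarAlgebra M] (D : Data A R M)

/-- The convolution `μ ⋆ ν = (μ ⊗ ν) ∘ Δᵤ = μ ∘ (id ⊗ ν) ∘ Δᵤ`. -/
noncomputable def conv (μ ν : A →L[ℂ] ℂ) : A →L[ℂ] ℂ := μ.comp (D.slice ν)

/-- `ρ` is in `L¹(Ĝ)`, seen inside the dual space of `A`: it is `ω ∘ ι ∘ Λ` for a normal functional
`ω` on `M`, that is, it factors through `Λ` and extends to a normal functional on `L^∞(Ĝ)`. -/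
def InL1 (ρ : A →L[ℂ] ℂ) : Prop := ∃ ω ∈ D.normal, ρ = ω.comp (D.ι.comp D.Λ)

/-- `Ĝ` is co-amenable, that is, `G` is strongly amenable: `Λ` is injective. -/
def CoAmenable : Prop := Function.Injective D.Λ

/-- `μ t`, `t ≥ 0`, is a `w*`-continuous convolution semigroup of states on `Ĝ`. -/
structure IsSemigroup (μ : ℝ → A →L[ℂ] ℂ) : Prop where
  state : ∀ t : ℝ, 0 ≤ t → IsState (μ t)
  zero : μ 0 = D.ε
  add : ∀ s t : ℝ, 0 ≤ s → 0 ≤ t → D.conv (μ s) (μ t) = μ (s + t)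
  cont : ∀ a : A, ContinuousOn (fun t => μ t a) (Ici 0)

/-- Known properties of the dual of a second countable locally compact quantum group. -/
structure IsDual : Prop where
  /-- `Λ` is a surjective homomorphism of C*-algebras -/
  Λ_mul : ∀ a b : A, D.Λ (a * b) = D.Λ a * D.Λ b
  Λ_star : ∀ a : A, D.Λ (star a) = star (D.Λ a)
  Λ_surj : Function.Surjective D.Λ
  /-- `ι` is an injective homomorphism of C*-algebras -/
  ι_mul : ∀ a b : R, D.ι (a * b) = D.ι a * D.ι b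
  ι_star : ∀ a : R, D.ι (star a) = star (D.ι a)
  ι_inj : Function.Injective D.ι
  /-- the counit is a character of `A` -/
  ε_mul : ∀ a b : A, D.ε (a * b) = D.ε a * D.ε b
  ε_state : IsState D.ε
  /-- the slice maps are contractive -/
  norm_slice : ∀ ν : A →L[ℂ] ℂ, ‖D.slice ν‖ ≤ ‖ν‖
  /-- the convolution is associative with the unit `ε` -/
  assoc : ∀ μ ν ρ : A →L[ℂ] ℂ, D.conv (D.conv μ ν) ρ = D.conv μ (D.conv ν ρ)
  ε_conv : ∀ μ : A →L[ℂ] ℂ, D.conv D.ε μ = μ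
  conv_ε : ∀ μ : A →L[ℂ] ℂ, D.conv μ D.ε = μ
  /-- the convolution of two states is a state -/
  state_conv : ∀ μ ν : A →L[ℂ] ℂ, IsState μ → IsState ν → IsState (D.conv μ ν)
  /-- `L¹(Ĝ)` is a closed two-sided ideal of the dual space of `A` -/
  closed : IsClosed {ρ : A →L[ℂ] ℂ | D.InL1 ρ}
  ideal : ∀ μ ρ : A →L[ℂ] ℂ, D.InL1 ρ → D.InL1 (D.conv μ ρ) ∧ D.InL1 (D.conv ρ μ)
  /-- density: the elements `(id ⊗ ρ)(Δᵤ(a))`, `ρ` in `L¹(Ĝ)`, span a dense subspace of `A` -/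
  dense : Dense (Submodule.span ℂ {b : A | ∃ ρ : A →L[ℂ] ℂ, D.InL1 ρ ∧ ∃ a : A,
    b = D.slice ρ a} : Set A)
  /-- (Bédos–Tuset) if `Ĝ` is co-amenable, then the (separable) Banach algebra `L¹(Ĝ)` has a
  two-sided approximate identity which consists of states -/
  bai : D.CoAmenable → ∃ ω : ℕ → A →L[ℂ] ℂ, (∀ n, IsState (ω n) ∧ D.InL1 (ω n)) ∧
    ∀ ρ : A →L[ℂ] ℂ, D.InL1 ρ → Tendsto (fun n => D.conv (ω n) ρ) atTop (𝓝 ρ) ∧
      Tendsto (fun n => D.conv ρ (ω n)) atTop (𝓝 ρ)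

end Data

end Pool.Agent.K3h48.QG
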