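import Mathlib

set_option autoImplicit false

open Filter Topology Set NormedSpace
open scoped Nat

namespace Pool.Agent.K3h48.QG

section

variable {B : Type*} [NormedRing B] [NormedAlgebra ℝ B] [NormOneClass B]

lemma norm_pow_le_of {X : B} {M : ℝ} (hX : ‖X‖ ≤ M) (k : ℕ) : ‖X ^ k‖ ≤ M ^ k :=
  (norm_pow_le X k).trans (pow_le_pow_left₀ (norm_nonneg _) hX k)

omit [NormedAlgebra ℝ B] in
lemma ek {X Y : B} {M ε : ℝ} (hM : 1 ≤ M) (hX : ‖X‖ ≤ M) (hY : ‖Y‖ ≤ M) (hε : 0 ≤ ε)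
    (h1 : ‖X * Y‖ ≤ ε) (h2 : ‖Y * X‖ ≤ ε) (k : ℕ) :
    ‖(X + Y) ^ (k + 1) - X ^ (k + 1) - Y ^ (k + 1)‖ ≤ ε * (4 * M) ^ (k + 1) := by
  induction k with
  | zero =>
    have h : (X + Y) ^ (0 + 1) - X ^ (0 + 1) - Y ^ (0 + 1) = 0 := by
      simp
    rw [h, norm_zero]
    positivity
  | succ k ih =>
    have h : (X + Y) ^ (k + 1 + 1) - X ^ (k + 1 + 1) - Y ^ (k + 1 + 1) =
        (X + Y) * ((X + Y) ^ (k + 1) - X ^ (k + 1) - Y ^ (k + 1)) + (X * Y) * Y ^ k +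
          (Y * X) * X ^ k := by
      have e1 : (X * Y) * Y ^ k = X * Y ^ (k + 1) := by rw [pow_succ', mul_assoc]
      have e2 : (Y * X) * X ^ k = Y * X ^ (k + 1) := by rw [pow_succ', mul_assoc]
      rw [e1, e2, pow_succ' (X + Y) (k + 1), pow_succ' X (k + 1), pow_succ' Y (k + 1)]
      noncomm_ring
    have hM0 : 0 ≤ M := by linarith
    have h3 : ‖X + Y‖ ≤ 2 * M := (norm_add_le _ _).trans (by linarith)
    have h4 : ‖(X + Y) * ((X + Y) ^ (k + 1) - X ^ (k + 1) - Y ^ (k + 1))‖ ≤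
        2 * M * (ε * (4 * M) ^ (k + 1)) :=
      (norm_mul_le _ _).trans (mul_le_mul h3 ih (norm_nonneg _) (by positivity))
    have h5 : ‖(X * Y) * Y ^ k‖ ≤ ε * M ^ k :=
      (norm_mul_le _ _).trans (mul_le_mul h1 ((norm_pow_le Y k).trans
        (pow_le_pow_left₀ (norm_nonneg _) hY k)) (norm_nonneg _) hε)
    have h6 : ‖(Y * X) * X ^ k‖ ≤ ε * M ^ k :=
      (norm_mul_le _ _).trans (mul_le_mul h2 ((norm_pow_le X k).trans
        (pow_le_pow_left₀ (norm_nonneg _) hX k)) (norm_nonneg _) hε)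
    have h7 : M ^ k ≤ M * (4 * M) ^ (k + 1) := by
      have h8 : M ^ k ≤ (4 * M) ^ k := pow_le_pow_left₀ hM0 (by linarith) k
      have h9 : (4 * M) ^ k ≤ (4 * M) ^ (k + 1) := pow_le_pow_right₀ (by linarith) (Nat.le_succ k)
      have h10 : (4 * M) ^ (k + 1) ≤ M * (4 * M) ^ (k + 1) :=
        le_mul_of_one_le_left (by positivity) hM
      linarith
    rw [h]
    refine (norm_add₃_le).trans ?_
    have h11 : ε * (4 * M) ^ (k + 1 + 1) =
        2 * M * (ε * (4 * M) ^ (k + 1)) + 2 * (ε * (M * (4 * M) ^ (k + 1))) := by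
      rw [pow_succ (4 * M) (k + 1)]
      ring
    have h12 := mul_le_mul_of_nonneg_left h7 hε
    rw [h11]
    linarith

end

section

variable {B : Type*} [NormedRing B] [NormedAlgebra ℝ B] [NormOneClass B] [CompleteSpace B]

omit [NormOneClass B] in
lemma hs (Z : B) : HasSum (fun k : ℕ => ((k ! : ℝ)⁻¹) • Z ^ k) (exp Z) :=
  exp_series_hasSum_exp' Z

omit [NormOneClass B] in
lemma hs1 (Z : B) : HasSum (fun k : ℕ => (((k + 1)! : ℝ)⁻¹) • Z ^ (k + 1)) (exp Z - 1) := by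
  have h := (hasSum_nat_add_iff' 1).2 (hs Z)
  simpa using h

lemma hsR (x : ℝ) : HasSum (fun k : ℕ => ((k ! : ℝ)⁻¹) * x ^ k) (Real.exp x) := by
  rw [Real.exp_eq_exp_ℝ]
  exact exp_series_hasSum_exp' (𝕂 := ℝ) x

lemma fact_inv_le (k : ℕ) : (((k + 1)! : ℝ)⁻¹) ≤ ((k ! : ℝ)⁻¹) := by
  apply inv_anti₀ (by positivity)
  exact_mod_cast Nat.factorial_le (Nat.le_succ k)

lemma expk {X Y : B} {M ε t : ℝ} (hM : 1 ≤ M) (hX : ‖X‖ ≤ M) (hY : ‖Y‖ ≤ M) (hε : 0 ≤ ε)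
    (h1 : ‖X * Y‖ ≤ ε) (h2 : ‖Y * X‖ ≤ ε) (ht : 0 ≤ t) :
    ‖exp (t • (X + Y)) - exp (t • X) - exp (t • Y) + 1‖ ≤ ε * Real.exp (4 * M * t) := by
  have h3 := ((hs1 (t • (X + Y))).sub (hs1 (t • X))).sub (hs1 (t • Y))
  have h4 : exp (t • (X + Y)) - 1 - (exp (t • X) - 1) - (exp (t • Y) - 1) =
      exp (t • (X + Y)) - exp (t • X) - exp (t • Y) + 1 := by abel
  rw [h4] at h3
  have h5 : HasSum (fun k : ℕ => ε * ((((k + 1)! : ℝ)⁻¹) * (4 * M * t) ^ (k + 1)))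
      (ε * (Real.exp (4 * M * t) - 1)) := by
    apply HasSum.mul_left
    have h := (hasSum_nat_add_iff' 1).2 (hsR (4 * M * t))
    simpa using h
  have h6 : ∀ k : ℕ, ‖(((k + 1)! : ℝ)⁻¹) • (t • (X + Y)) ^ (k + 1) -
      (((k + 1)! : ℝ)⁻¹) • (t • X) ^ (k + 1) - (((k + 1)! : ℝ)⁻¹) • (t • Y) ^ (k + 1)‖ ≤
      ε * ((((k + 1)! : ℝ)⁻¹) * (4 * M * t) ^ (k + 1)) := by
    intro k
    have h7 : (((k + 1)! : ℝ)⁻¹) • (t • (X + Y)) ^ (k + 1) -
      (((k + 1)! : ℝ)⁻¹) • (t • X) ^ (k + 1) - (((k + 1)! : ℝ)⁻¹) • (t • Y) ^ (k + 1) =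
      ((((k + 1)! : ℝ)⁻¹) * t ^ (k + 1)) •
        ((X + Y) ^ (k + 1) - X ^ (k + 1) - Y ^ (k + 1)) := by
      rw [smul_pow, smul_pow, smul_pow, smul_smul, smul_smul, smul_smul, smul_sub, smul_sub]
    rw [h7, norm_smul, Real.norm_of_nonneg (by positivity)]
    have h8 := mul_le_mul_of_nonneg_left (ek hM hX hY hε h1 h2 k)
      (by positivity : (0 : ℝ) ≤ (((k + 1)! : ℝ)⁻¹) * t ^ (k + 1))
    refine h8.trans (le_of_eq ?_)
    rw [mul_pow (4 * M) t]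
    ring
  refine (h3.norm_le_of_bounded h5 h6).trans ?_
  have := mul_nonneg hε (zero_le_one' ℝ)
  nlinarith

lemma exp_sub_le (Z ν : B) : ‖exp Z * ν - ν‖ ≤ ‖Z * ν‖ * Real.exp ‖Z‖ := by
  have h1 := (hs1 Z).mul_right ν
  have h2 : (exp Z - 1) * ν = exp Z * ν - ν := by rw [sub_mul, one_mul]
  rw [h2] at h1
  have h3 := (hsR ‖Z‖).mul_left ‖Z * ν‖
  refine h1.norm_le_of_bounded h3 fun k => ?_
  rw [pow_succ, smul_mul_assoc, mul_assoc, norm_smul, Real.norm_of_nonneg (by positivity)]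
  have h4 : ‖Z ^ k * (Z * ν)‖ ≤ ‖Z‖ ^ k * ‖Z * ν‖ :=
    (norm_mul_le _ _).trans (mul_le_mul_of_nonneg_right (norm_pow_le Z k) (norm_nonneg _))
  have h5 := mul_le_mul (fact_inv_le k) h4 (norm_nonneg _) (by positivity)
  refine h5.trans (le_of_eq ?_)
  ring

omit [NormOneClass B] in
lemma exp_shift (Z : B) (s : ℝ) : exp (Z - s • (1 : B)) = Real.exp (-s) • exp Z := by
  letI : NormedAlgebra ℚ B := NormedAlgebra.restrictScalars ℚ ℝ B
  have h1 : Z - s • (1 : B) = Z + (-s) • (1 : B) := by rw [neg_smul, sub_eq_add_neg]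
  have hc : Commute Z ((-s) • (1 : B)) := (Commute.one_right Z).smul_right (-s)
  rw [h1, exp_add_of_commute hc]
  have h2 : exp ((-s) • (1 : B)) = Real.exp (-s) • (1 : B) := by
    rw [← Algebra.algebraMap_eq_smul_one, ← algebraMap_exp_comm, Algebra.algebraMap_eq_smul_one,
      Real.exp_eq_exp_ℝ]
  rw [h2, mul_smul_comm, mul_one]

/-- Poisson semigroups stay in `S`. -/
lemma mem_S {S : Set B} (hc : IsClosed S) (hv : Convex ℝ S) (h1 : (1 : B) ∈ S)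
    (hm : ∀ x ∈ S, ∀ y ∈ S, x * y ∈ S) {x : B} (hx : x ∈ S) {t : ℝ} (ht : 0 ≤ t) :
    exp (t • (x - 1)) ∈ S := by
  have hpow : ∀ k : ℕ, x ^ k ∈ S := by
    intro k
    induction k with
    | zero => simpa using h1
    | succ k ih =>
      rw [pow_succ]
      exact hm _ ih _ hx
  have h2 : exp (t • (x - 1)) = (Real.exp t)⁻¹ • exp (t • x) := by
    rw [smul_sub, exp_shift, Real.exp_neg]
  rw [h2]
  have h3 : Tendsto (fun n : ℕ => (∑ k ∈ Finset.range n, ((k ! : ℝ)⁻¹) * t ^ k)) atTop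
      (𝓝 (Real.exp t)) := (hsR t).tendsto_sum_nat
  have h4 : Tendsto (fun n : ℕ => (∑ k ∈ Finset.range n, ((k ! : ℝ)⁻¹) • (t • x) ^ k)) atTop
      (𝓝 (exp (t • x))) := (hs (t • x)).tendsto_sum_nat
  have h5 := (h3.inv₀ (Real.exp_pos t).ne').smul h4
  refine hc.mem_of_tendsto h5 ?_
  filter_upwards [eventually_ge_atTop 1] with n hn
  have h6 : (∑ k ∈ Finset.range n, ((k ! : ℝ)⁻¹) • (t • x) ^ k) =
      ∑ k ∈ Finset.range n, (((k ! : ℝ)⁻¹) * t ^ k) • x ^ k := by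
    refine Finset.sum_congr rfl fun k _ => ?_
    rw [smul_pow, smul_smul]
  rw [h6]
  refine hv.centerMass_mem (t := Finset.range n) (w := fun k => ((k ! : ℝ)⁻¹) * t ^ k)
    (z := fun k => x ^ k) (fun k _ => by positivity) ?_ (fun k _ => hpow k)
  have h7 : ((0 ! : ℝ)⁻¹) * t ^ 0 ≤ ∑ k ∈ Finset.range n, ((k ! : ℝ)⁻¹) * t ^ k :=
    Finset.single_le_sum (f := fun k => ((k ! : ℝ)⁻¹) * t ^ k) (fun k _ => by positivity)
      (Finset.mem_range.2 hn)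
  simp at h7
  linarith

omit [NormOneClass B] in
lemma mem_J {J : Submodule ℝ B} (hc : IsClosed (J : Set B)) (hm : ∀ x ∈ J, ∀ y ∈ J, x * y ∈ J)
    {Z : B} (hZ : Z ∈ J) : exp Z - 1 ∈ J := by
  have hpow : ∀ k : ℕ, Z ^ (k + 1) ∈ J := by
    intro k
    induction k with
    | zero => simpa using hZ
    | succ k ih =>
      rw [pow_succ]
      exact hm _ ih _ hZ
  have h := (hs1 Z).tendsto_sum_nat
  refine hc.mem_of_tendsto h (Eventually.of_forall fun n => ?_)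
  exact Submodule.sum_mem _ fun k _ => Submodule.smul_mem _ _ (hpow k)

end

end Pool.Agent.K3h48.QG
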