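import Pool.Agent.K3h48.QG.T1

set_option autoImplicit false

open Filter Topology Set NormedSpace
open scoped Nat

namespace Pool.Agent.K3h48.QG

/-- A closed convex multiplicative set `S` in the unit ball and a closed subalgebra `J` with a
two-sided approximate identity in `S ∩ J`. -/
structure Ctx {B : Type*} [NormedRing B] [NormedAlgebra ℝ B] (S : Set B) (J : Submodule ℝ B)
    (ω : ℕ → B) : Prop where
  closedS : IsClosed S
  convexS : Convex ℝ S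
  oneS : (1 : B) ∈ S
  mulS : ∀ x ∈ S, ∀ y ∈ S, x * y ∈ S
  normS : ∀ x ∈ S, ‖x‖ ≤ 1
  closedJ : IsClosed (J : Set B)
  mulJ : ∀ x ∈ J, ∀ y ∈ J, x * y ∈ J
  ωS : ∀ n, ω n ∈ S
  ωJ : ∀ n, ω n ∈ J
  left : ∀ ν ∈ J, Tendsto (fun n => ω n * ν) atTop (𝓝 ν)
  right : ∀ ν ∈ J, Tendsto (fun n => ν * ω n) atTop (𝓝 ν)

section

variable {B : Type*} [NormedRing B] [NormedAlgebra ℝ B] [NormOneClass B] [CompleteSpace B]
  {S : Set B} {J : Submodule ℝ B} {ω : ℕ → B}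

omit [NormOneClass B] [CompleteSpace B] in
lemma exists_pick (h : Ctx S J ω) (N : ℕ) {c : ℝ} (hc : 0 < c) {x : B} (hx : x ∈ J) :
    ∃ n : ℕ, N ≤ n ∧ ‖(ω n - 1) * x‖ ≤ c ∧ ‖x * (ω n - 1)‖ ≤ c := by
  have h1 := (tendsto_iff_norm_sub_tendsto_zero.1 (h.left x hx)).eventually_le_const hc
  have h2 := (tendsto_iff_norm_sub_tendsto_zero.1 (h.right x hx)).eventually_le_const hc
  obtain ⟨n, h3, h4, h5⟩ := (((eventually_ge_atTop N).and (h1.and h2)).exists)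
  refine ⟨n, h3, ?_, ?_⟩
  · rwa [sub_mul, one_mul]
  · rwa [mul_sub, mul_one]

open Classical in
omit [NormOneClass B] [CompleteSpace B] in
lemma exists_seq (h : Ctx S J ω) (c : ℕ → ℝ) (hc : ∀ N, 0 < c N) :
    ∃ o : ℕ → ℕ, (∀ N, N ≤ o N) ∧ ∀ N,
      ‖(ω (o N) - 1) * ∑ k ∈ Finset.range N, ω (o k)‖ ≤ c N ∧
      ‖(∑ k ∈ Finset.range N, ω (o k)) * (ω (o N) - 1)‖ ≤ c N := by
  have hex : ∀ N : ℕ, ∀ x : B, ∃ n : ℕ, N ≤ n ∧ (x ∈ J → ‖(ω n - 1) * x‖ ≤ c N ∧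
      ‖x * (ω n - 1)‖ ≤ c N) := by
    intro N x
    by_cases hx : x ∈ J
    · obtain ⟨n, h1, h2, h3⟩ := exists_pick h N (hc N) hx
      exact ⟨n, h1, fun _ => ⟨h2, h3⟩⟩
    · exact ⟨N, le_rfl, fun hx' => absurd hx' hx⟩
  choose pick hp1 hp2 using hex
  let Ω : ℕ → B := fun N => Nat.rec 0 (fun N x => x + ω (pick N x)) N
  have hΩ0 : Ω 0 = 0 := rfl
  have hΩs : ∀ N, Ω (N + 1) = Ω N + ω (pick N (Ω N)) := fun N => rfl
  have hΩ : ∀ N, Ω N = ∑ k ∈ Finset.range N, ω (pick k (Ω k)) := by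
    intro N
    induction N with
    | zero => simpa using hΩ0
    | succ N ih => rw [hΩs, Finset.sum_range_succ, ← ih]
  have hJ : ∀ N, Ω N ∈ J := by
    intro N
    rw [hΩ]
    exact Submodule.sum_mem _ fun k _ => h.ωJ _
  refine ⟨fun N => pick N (Ω N), fun N => hp1 N _, fun N => ?_⟩
  rw [← hΩ]
  exact hp2 N (Ω N) (hJ N)

/-- the constants -/
noncomputable def cst (N : ℕ) : ℝ := (1 / 2) ^ N * Real.exp (-(4 * (N + 2) * N))

lemma cst_pos (N : ℕ) : 0 < cst N := by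
  unfold cst
  positivity

/-- the approximating semigroups -/
noncomputable def P (ω : ℕ → B) (o : ℕ → ℕ) (N : ℕ) (t : ℝ) : B :=
  exp (t • ((∑ k ∈ Finset.range N, ω (o k)) - (N : ℝ) • (1 : B)))

omit [NormOneClass B] [CompleteSpace B] in
lemma P_zero (o : ℕ → ℕ) (N : ℕ) : P ω o N 0 = 1 := by
  unfold P
  rw [zero_smul, exp_zero]

omit [NormOneClass B] in
lemma P_add (o : ℕ → ℕ) (N : ℕ) (s t : ℝ) : P ω o N (s + t) = P ω o N s * P ω o N t := by
  letI : NormedAlgebra ℚ B := NormedAlgebra.restrictScalars ℚ ℝ B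
  unfold P
  rw [add_smul, exp_add_of_commute]
  exact ((Commute.refl _).smul_left s).smul_right t

lemma P_S (h : Ctx S J ω) (o : ℕ → ℕ) (N : ℕ) {t : ℝ} (ht : 0 ≤ t) : P ω o N t ∈ S := by
  rcases Nat.eq_zero_or_pos N with h0 | h0
  · subst h0
    unfold P
    simp only [Finset.range_zero, Finset.sum_empty, Nat.cast_zero, zero_smul, sub_zero, smul_zero,
      exp_zero]
    exact h.oneS
  · have hN : (0 : ℝ) < N := by exact_mod_cast h0
    have hx : (Finset.range N).centerMass (fun _ => (1 : ℝ)) (fun k => ω (o k)) ∈ S := by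
      refine h.convexS.centerMass_mem (fun _ _ => zero_le_one) ?_ (fun k _ => h.ωS _)
      simpa using hN
    have hx2 : (Finset.range N).centerMass (fun _ => (1 : ℝ)) (fun k => ω (o k)) =
        (N : ℝ)⁻¹ • ∑ k ∈ Finset.range N, ω (o k) := by
      simp [Finset.centerMass]
    rw [hx2] at hx
    have h1 := mem_S h.closedS h.convexS h.oneS h.mulS hx (mul_nonneg ht hN.le)
    unfold P
    have h2 : t • ((∑ k ∈ Finset.range N, ω (o k)) - (N : ℝ) • (1 : B)) =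
        (t * (N : ℝ)) • ((N : ℝ)⁻¹ • (∑ k ∈ Finset.range N, ω (o k)) - 1) := by
      rw [mul_smul, smul_sub (N : ℝ), smul_smul (N : ℝ), mul_inv_cancel₀ hN.ne', one_smul]
    rw [h2]
    exact h1

omit [NormOneClass B] in
lemma P_eq (o : ℕ → ℕ) (N : ℕ) (t : ℝ) :
    P ω o N t = Real.exp (-(t * N)) • exp (t • ∑ k ∈ Finset.range N, ω (o k)) := by
  unfold P
  rw [smul_sub, smul_smul, exp_shift]

omit [NormOneClass B] in
lemma P_J (h : Ctx S J ω) (o : ℕ → ℕ) (N : ℕ) (t : ℝ) :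
    P ω o N t - Real.exp (-(t * N)) • (1 : B) ∈ J := by
  rw [P_eq, ← smul_sub]
  refine Submodule.smul_mem _ _ (mem_J h.closedJ h.mulJ ?_)
  exact Submodule.smul_mem _ _ (Submodule.sum_mem _ fun k _ => h.ωJ _)

lemma norm_sum_le' (h : Ctx S J ω) (o : ℕ → ℕ) (N : ℕ) :
    ‖∑ k ∈ Finset.range N, ω (o k)‖ ≤ (N : ℝ) + 2 := by
  have h1 : ‖∑ k ∈ Finset.range N, ω (o k)‖ ≤ ∑ k ∈ Finset.range N, (1 : ℝ) :=
    norm_sum_le_of_le _ fun k _ => h.normS _ (h.ωS _)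
  simp only [Finset.sum_const, Finset.card_range, nsmul_eq_mul, mul_one] at h1
  linarith

lemma norm_D (h : Ctx S J ω) (n : ℕ) : ‖ω n - 1‖ ≤ 2 := by
  have h1 := norm_sub_le (ω n) (1 : B)
  have h2 := h.normS _ (h.ωS n)
  rw [norm_one] at h1
  linarith

/-- the difference of consecutive approximations -/
lemma P_diff (h : Ctx S J ω) (o : ℕ → ℕ) (ho : ∀ N,
      ‖(ω (o N) - 1) * ∑ k ∈ Finset.range N, ω (o k)‖ ≤ cst N ∧
      ‖(∑ k ∈ Finset.range N, ω (o k)) * (ω (o N) - 1)‖ ≤ cst N) (N : ℕ) {t : ℝ} (ht : 0 ≤ t)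
    (htN : t ≤ N) :
    ‖P ω o (N + 1) t - P ω o N t - Real.exp (-(t * N)) • (exp (t • (ω (o N) - 1)) - 1)‖ ≤
      (1 / 2) ^ N := by
  set Ω := ∑ k ∈ Finset.range N, ω (o k) with hΩ
  have h1 : P ω o (N + 1) t = Real.exp (-(t * N)) • exp (t • (Ω + (ω (o N) - 1))) := by
    unfold P
    rw [Finset.sum_range_succ, ← hΩ]
    have h2 : t • (Ω + ω (o N) - ((N + 1 : ℕ) : ℝ) • (1 : B)) =
        t • (Ω + (ω (o N) - 1)) - (t * N) • (1 : B) := by
      push_cast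
      rw [add_smul, one_smul, mul_smul]
      rw [← smul_sub]
      congr 1
      abel
    rw [h2, exp_shift]
  have h2 : P ω o N t = Real.exp (-(t * N)) • exp (t • Ω) := P_eq o N t
  have h3 : P ω o (N + 1) t - P ω o N t - Real.exp (-(t * N)) • (exp (t • (ω (o N) - 1)) - 1) =
      Real.exp (-(t * N)) • (exp (t • (Ω + (ω (o N) - 1))) - exp (t • Ω) -
        exp (t • (ω (o N) - 1)) + 1) := by
    rw [h1, h2, ← smul_sub, ← smul_sub]
    congr 1
    abel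
  have h4 := expk (X := Ω) (Y := ω (o N) - 1) (M := (N : ℝ) + 2) (ε := cst N) (t := t)
    (by have : (0 : ℝ) ≤ N := Nat.cast_nonneg N
        linarith) (norm_sum_le' h o N)
    ((norm_D h _).trans (by have : (0 : ℝ) ≤ N := Nat.cast_nonneg N
                            linarith)) (cst_pos N).le (ho N).2 (ho N).1 ht
  rw [h3, norm_smul, Real.norm_of_nonneg (Real.exp_pos _).le]
  have h5 : Real.exp (-(t * N)) ≤ 1 := by
    rw [Real.exp_le_one_iff]
    have : (0 : ℝ) ≤ t * N := mul_nonneg ht (Nat.cast_nonneg N)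
    linarith
  have h6 : cst N * Real.exp (4 * ((N : ℝ) + 2) * t) ≤ (1 / 2) ^ N := by
    unfold cst
    rw [mul_assoc, ← Real.exp_add]
    have h7 : Real.exp (-(4 * ((N : ℝ) + 2) * N) + 4 * ((N : ℝ) + 2) * t) ≤ 1 := by
      rw [Real.exp_le_one_iff]
      have h8 : 4 * ((N : ℝ) + 2) * t ≤ 4 * ((N : ℝ) + 2) * N :=
        mul_le_mul_of_nonneg_left htN (by positivity)
      linarith
    exact mul_le_of_le_one_right (by positivity) h7
  calc Real.exp (-(t * N)) * ‖exp (t • (Ω + (ω (o N) - 1))) - exp (t • Ω) -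
        exp (t • (ω (o N) - 1)) + 1‖ ≤ 1 * (cst N * Real.exp (4 * ((N : ℝ) + 2) * t)) :=
        mul_le_mul h5 h4 (norm_nonneg _) zero_le_one
    _ ≤ (1 / 2) ^ N := by rw [one_mul]; exact h6

end

end Pool.Agent.K3h48.QG
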