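import Pool.Agent.K3h48.QG.T2

set_option autoImplicit false

open Filter Topology Set NormedSpace
open scoped Nat

namespace Pool.Agent.K3h48.QG

section

variable {B : Type*} [NormedRing B] [NormedAlgebra ℝ B] [NormOneClass B] [CompleteSpace B]
  {S : Set B} {J : Submodule ℝ B} {ω : ℕ → B}

/-- the conditions on the choice -/
def Chosen (ω : ℕ → B) (o : ℕ → ℕ) : Prop := ∀ N,
      ‖(ω (o N) - 1) * ∑ k ∈ Finset.range N, ω (o k)‖ ≤ cst N ∧
      ‖(∑ k ∈ Finset.range N, ω (o k)) * (ω (o N) - 1)‖ ≤ cst N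

lemma P_dist (h : Ctx S J ω) {o : ℕ → ℕ} (ho : Chosen ω o) (N : ℕ) {t : ℝ} (ht : 0 ≤ t)
    (htN : t ≤ N) :
    dist (P ω o N t) (P ω o (N + 1) t) ≤ 2 * (Real.exp (-t)) ^ N + (1 / 2) ^ N := by
  have h1 := P_diff h o ho N ht htN
  have h2 : exp (t • (ω (o N) - 1)) ∈ S :=
    mem_S h.closedS h.convexS h.oneS h.mulS (h.ωS _) ht
  have h3 : ‖Real.exp (-(t * N)) • (exp (t • (ω (o N) - 1)) - 1)‖ ≤ 2 * (Real.exp (-t)) ^ N := by
    rw [norm_smul, Real.norm_of_nonneg (Real.exp_pos _).le]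
    have h4 : ‖exp (t • (ω (o N) - 1)) - 1‖ ≤ 2 := by
      have h5 := norm_sub_le (exp (t • (ω (o N) - 1))) (1 : B)
      have h6 := h.normS _ h2
      rw [norm_one] at h5
      linarith
    have h7 : Real.exp (-(t * N)) = (Real.exp (-t)) ^ N := by
      rw [← Real.exp_nat_mul]
      congr 1
      ring
    rw [h7, mul_comm]
    exact mul_le_mul_of_nonneg_right h4 (by positivity)
  rw [dist_comm, dist_eq_norm]
  have h8 : P ω o (N + 1) t - P ω o N t =
      (P ω o (N + 1) t - P ω o N t - Real.exp (-(t * N)) • (exp (t • (ω (o N) - 1)) - 1)) +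
      Real.exp (-(t * N)) • (exp (t • (ω (o N) - 1)) - 1) := by abel
  rw [h8]
  refine (norm_add_le _ _).trans ?_
  linarith

lemma P_tendsto (h : Ctx S J ω) {o : ℕ → ℕ} (ho : Chosen ω o) {t : ℝ} (ht : 0 ≤ t) :
    ∃ y : B, Tendsto (fun N => P ω o N t) atTop (𝓝 y) := by
  rcases ht.eq_or_lt with h0 | h0
  · subst h0
    refine ⟨1, ?_⟩
    simp only [P_zero]
    exact tendsto_const_nhds
  · apply cauchySeq_tendsto_of_complete
    apply cauchySeq_of_summable_dist
    have h1 : Summable fun N : ℕ => 2 * (Real.exp (-t)) ^ N + (1 / 2 : ℝ) ^ N := by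
      refine ((summable_geometric_of_lt_one (Real.exp_pos _).le ?_).mul_left 2).add
        (summable_geometric_of_lt_one (by norm_num) (by norm_num))
      rw [Real.exp_lt_one_iff]
      linarith
    refine Summable.of_norm_bounded_eventually_nat h1 ?_
    obtain ⟨n, hn⟩ := exists_nat_ge t
    filter_upwards [eventually_ge_atTop n] with N hN
    rw [Real.norm_of_nonneg dist_nonneg]
    refine P_dist h ho N ht (hn.trans ?_)
    exact_mod_cast hN

/-- a geometric sum -/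
lemma geo {t : ℝ} (h0 : 0 ≤ t) (h1 : t ≤ 1) (N M : ℕ) :
    ∑ k ∈ Finset.Ico N M, Real.exp (-(t * k)) * t ≤ 2 := by
  have h2 : ∀ k : ℕ, Real.exp (-(t * k)) = (Real.exp (-t)) ^ k := by
    intro k
    rw [← Real.exp_nat_mul]
    congr 1
    ring
  have h3 : ∑ k ∈ Finset.Ico N M, Real.exp (-(t * k)) * t ≤
      ∑ k ∈ Finset.range M, Real.exp (-(t * k)) * t := by
    refine Finset.sum_le_sum_of_subset_of_nonneg ?_ fun k _ _ => by positivity
    intro k hk
    rw [Finset.mem_Ico] at hk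
    exact Finset.mem_range.2 hk.2
  refine h3.trans ?_
  simp only [h2]
  rw [← Finset.sum_mul]
  have h4 : t ≤ 2 * (1 - Real.exp (-t)) := by
    have h5 : Real.exp (-t) ≤ 1 / (1 + t) := by
      rw [Real.exp_neg, inv_eq_one_div]
      apply one_div_le_one_div_of_le (by linarith)
      have := Real.add_one_le_exp t
      linarith
    have h6 : 1 / (1 + t) ≤ 1 - t / 2 := by
      rw [div_le_iff₀ (by linarith)]
      nlinarith
    linarith
  have h7 : (∑ k ∈ Finset.range M, (Real.exp (-t)) ^ k) * (1 - Real.exp (-t)) =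
      1 - (Real.exp (-t)) ^ M := by
    have := geom_sum_mul (Real.exp (-t)) M
    linarith
  have h8 : 0 ≤ ∑ k ∈ Finset.range M, (Real.exp (-t)) ^ k :=
    Finset.sum_nonneg fun k _ => by positivity
  have h9 := mul_le_mul_of_nonneg_left h4 h8
  have h10 : (0 : ℝ) ≤ (Real.exp (-t)) ^ M := by positivity
  nlinarith

lemma geo2 (N M : ℕ) : ∑ k ∈ Finset.Ico N M, (1 / 2 : ℝ) ^ k ≤ 2 * (1 / 2) ^ N := by
  rcases le_total M N with h | h
  · rw [Finset.Ico_eq_empty (by omega), Finset.sum_empty]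
    positivity
  · have h1 := geom_sum_Ico (x := (1 / 2 : ℝ)) (by norm_num) h
    rw [h1]
    have : (0 : ℝ) ≤ (1 / 2 : ℝ) ^ M := by positivity
    have h2 : ((1 / 2 : ℝ) ^ M - (1 / 2) ^ N) / (1 / 2 - 1) =
        2 * (1 / 2) ^ N - 2 * (1 / 2) ^ M := by ring
    rw [h2]
    linarith

/-- uniform estimate for small `t` -/
lemma P_unif (h : Ctx S J ω) {o : ℕ → ℕ} (ho : Chosen ω o) (ν : B) {N : ℕ} {σ : ℝ}
    (hN : 1 ≤ N) (hσ : ∀ k, N ≤ k → ‖(ω (o k) - 1) * ν‖ ≤ σ) (M : ℕ) (hM : N ≤ M) {t : ℝ}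
    (ht : 0 ≤ t) (ht1 : t ≤ 1) :
    ‖P ω o M t * ν - P ω o N t * ν‖ ≤ 2 * (σ * Real.exp 2) + 2 * (1 / 2) ^ N * ‖ν‖ := by
  have h1 : ∀ {k : ℕ}, N ≤ k → k < M → dist (P ω o k t * ν) (P ω o (k + 1) t * ν) ≤
      Real.exp (-(t * k)) * t * (σ * Real.exp 2) + (1 / 2 : ℝ) ^ k * ‖ν‖ := by
    intro k hk _
    have htk : t ≤ k := by
      have : (1 : ℝ) ≤ k := by exact_mod_cast hN.trans hk
      linarith
    have h2 := P_diff h o ho k ht htk
    rw [dist_comm, dist_eq_norm]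
    have h3 : P ω o (k + 1) t * ν - P ω o k t * ν =
        (P ω o (k + 1) t - P ω o k t - Real.exp (-(t * k)) • (exp (t • (ω (o k) - 1)) - 1)) * ν +
        Real.exp (-(t * k)) • (exp (t • (ω (o k) - 1)) * ν - ν) := by
      rw [sub_mul, sub_mul, smul_mul_assoc, sub_mul, one_mul]
      abel
    rw [h3]
    have h4 : ‖(P ω o (k + 1) t - P ω o k t -
        Real.exp (-(t * k)) • (exp (t • (ω (o k) - 1)) - 1)) * ν‖ ≤ (1 / 2) ^ k * ‖ν‖ :=
      (norm_mul_le _ _).trans (mul_le_mul_of_nonneg_right h2 (norm_nonneg _))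
    have h5 : ‖Real.exp (-(t * k)) • (exp (t • (ω (o k) - 1)) * ν - ν)‖ ≤
        Real.exp (-(t * k)) * t * (σ * Real.exp 2) := by
      rw [norm_smul, Real.norm_of_nonneg (Real.exp_pos _).le, mul_assoc]
      refine mul_le_mul_of_nonneg_left ?_ (Real.exp_pos _).le
      refine (exp_sub_le _ _).trans ?_
      rw [smul_mul_assoc, norm_smul, Real.norm_of_nonneg ht, mul_assoc]
      refine mul_le_mul_of_nonneg_left ?_ ht
      refine mul_le_mul (hσ k hk) ?_ (Real.exp_pos _).le ((norm_nonneg _).trans (hσ k hk))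
      rw [Real.exp_le_exp, norm_smul, Real.norm_of_nonneg ht]
      have := norm_D h (o k)
      nlinarith [norm_nonneg (ω (o k) - 1)]
    refine (norm_add_le _ _).trans ?_
    linarith
  have h2 := dist_le_Ico_sum_of_dist_le (f := fun k => P ω o k t * ν) hM h1
  rw [dist_comm, dist_eq_norm] at h2
  refine h2.trans ?_
  have hsum : ∑ k ∈ Finset.Ico N M, (Real.exp (-(t * k)) * t * (σ * Real.exp 2) +
      (1 / 2 : ℝ) ^ k * ‖ν‖) = (∑ k ∈ Finset.Ico N M, Real.exp (-(t * k)) * t) *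
      (σ * Real.exp 2) + (∑ k ∈ Finset.Ico N M, (1 / 2 : ℝ) ^ k) * ‖ν‖ := by
    rw [Finset.sum_add_distrib, Finset.sum_mul, Finset.sum_mul]
  rw [hsum]
  have hσ0 : 0 ≤ σ := (norm_nonneg _).trans (hσ N le_rfl)
  have h3 := mul_le_mul_of_nonneg_right (geo ht ht1 N M)
    (by positivity : (0 : ℝ) ≤ σ * Real.exp 2)
  have h4 := mul_le_mul_of_nonneg_right (geo2 N M) (norm_nonneg ν)
  linarith

/-- The semigroup. -/
theorem main (h : Ctx S J ω) : ∃ μ : ℝ → B, μ 0 = 1 ∧
    (∀ s t : ℝ, 0 ≤ s → 0 ≤ t → μ (s + t) = μ s * μ t) ∧ (∀ t : ℝ, 0 ≤ t → μ t ∈ S) ∧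
    (∀ t : ℝ, 0 < t → μ t ∈ J) ∧
    ∀ ν ∈ J, Tendsto (fun t => μ t * ν) (𝓝[>] 0) (𝓝 ν) := by
  obtain ⟨o, ho1, ho⟩ := exists_seq h cst cst_pos
  have hex : ∀ t : ℝ, ∃ y : B, 0 ≤ t → Tendsto (fun N => P ω o N t) atTop (𝓝 y) := by
    intro t
    by_cases ht : 0 ≤ t
    · obtain ⟨y, hy⟩ := P_tendsto h ho ht
      exact ⟨y, fun _ => hy⟩
    · exact ⟨0, fun ht' => absurd ht' ht⟩
  choose μ hμ using hex
  refine ⟨μ, ?_, ?_, ?_, ?_, ?_⟩
  · have h1 := hμ 0 le_rfl
    simp only [P_zero] at h1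
    exact tendsto_nhds_unique h1 tendsto_const_nhds
  · intro s t hs ht
    have h1 := hμ (s + t) (add_nonneg hs ht)
    simp only [P_add] at h1
    exact tendsto_nhds_unique h1 ((hμ s hs).mul (hμ t ht))
  · intro t ht
    exact h.closedS.mem_of_tendsto (hμ t ht) (Eventually.of_forall fun N => P_S h o N ht)
  · intro t ht
    have h1 : Tendsto (fun N : ℕ => P ω o N t - Real.exp (-(t * N)) • (1 : B)) atTop
        (𝓝 (μ t - (0 : ℝ) • (1 : B))) := by
      refine (hμ t ht.le).sub (Tendsto.smul_const ?_ _)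
      refine Real.tendsto_exp_neg_atTop_nhds_zero.comp ?_
      exact Tendsto.const_mul_atTop ht tendsto_natCast_atTop_atTop
    rw [zero_smul, sub_zero] at h1
    exact h.closedJ.mem_of_tendsto h1 (Eventually.of_forall fun N => P_J h o N t)
  · intro ν hν
    rw [Metric.tendsto_nhds]
    intro ε hε
    -- the constant `σ`
    set σ : ℝ := ε / (8 * Real.exp 2) with hσ
    have hσ0 : 0 < σ := by positivity
    have h1 : ∀ᶠ n : ℕ in atTop, ‖(ω n - 1) * ν‖ ≤ σ := by
      have h2 := (tendsto_iff_norm_sub_tendsto_zero.1 (h.left ν hν)).eventually_le_const hσ0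
      filter_upwards [h2] with n hn
      rwa [sub_mul, one_mul]
    obtain ⟨N₁, hN₁⟩ := eventually_atTop.1 h1
    have h2 : Tendsto (fun N : ℕ => 2 * (1 / 2 : ℝ) ^ N * ‖ν‖) atTop (𝓝 (2 * 0 * ‖ν‖)) :=
      ((tendsto_pow_atTop_nhds_zero_of_lt_one (by norm_num) (by norm_num)).const_mul 2).mul_const _
    rw [mul_zero, zero_mul] at h2
    obtain ⟨N₂, hN₂⟩ := eventually_atTop.1 (h2.eventually_le_const (show (0 : ℝ) < ε / 4 by
      positivity))
    set N := max 1 (max N₁ N₂) with hNdef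
    have hN1 : 1 ≤ N := le_max_left _ _
    have hNN1 : N₁ ≤ N := (le_max_left _ _).trans (le_max_right _ _)
    have hNN2 : N₂ ≤ N := (le_max_right _ _).trans (le_max_right _ _)
    have h3 : ∀ t : ℝ, 0 ≤ t → t ≤ 1 → ‖μ t * ν - P ω o N t * ν‖ ≤ ε / 2 := by
      intro t ht ht1
      have h4 : Tendsto (fun M => ‖P ω o M t * ν - P ω o N t * ν‖) atTop
          (𝓝 ‖μ t * ν - P ω o N t * ν‖) :=
        (((hμ t ht).mul_const ν).sub_const _).norm
      refine le_of_tendsto h4 ?_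
      filter_upwards [eventually_ge_atTop N] with M hM
      refine (P_unif h ho ν hN1 (fun k hk => hN₁ _ (hNN1.trans (hk.trans (ho1 k)))) M hM ht
        ht1).trans ?_
      have h5 : 2 * (σ * Real.exp 2) = ε / 4 := by
        rw [hσ]
        have := Real.exp_pos 2
        field_simp
        ring
      have h6 := hN₂ N hNN2
      linarith
    have h4 : Tendsto (fun t : ℝ => P ω o N t * ν) (𝓝[>] 0) (𝓝 ν) := by
      have hc : Continuous fun t : ℝ => P ω o N t * ν := by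
        letI : NormedAlgebra ℚ B := NormedAlgebra.restrictScalars ℚ ℝ B
        unfold P
        exact (exp_continuous.comp (continuous_id.smul continuous_const)).mul continuous_const
      have h5 := hc.tendsto 0
      rw [P_zero, one_mul] at h5
      exact h5.mono_left nhdsWithin_le_nhds
    have h5 := Metric.tendsto_nhds.1 h4 (ε / 2) (by positivity)
    have h6 : ∀ᶠ t : ℝ in 𝓝[>] 0, t ≤ 1 :=
      nhdsWithin_le_nhds (Iic_mem_nhds zero_lt_one)
    filter_upwards [h5, h6, self_mem_nhdsWithin] with t h7 h8 h9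
    have h10 := h3 t (le_of_lt h9) h8
    rw [← dist_eq_norm] at h10
    calc dist (μ t * ν) ν ≤ dist (μ t * ν) (P ω o N t * ν) + dist (P ω o N t * ν) ν :=
          dist_triangle _ _ _
      _ < ε / 2 + ε / 2 := add_lt_add_of_le_of_lt h10 h7
      _ = ε := by ring

end

end Pool.Agent.K3h48.QG
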