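import Pool.Agent.K3h48.QG.T3
import Pool.Agent.K3h48.QG.Defs

set_option autoImplicit false

open Filter Topology Set
open scoped ComplexOrder

namespace Pool.Agent.K3h48.QG

universe u v w

/-- norm continuity at positive times -/
lemma cont_Ioi {B : Type*} [NormedRing B] {μ : ℝ → B}
    (hadd : ∀ s t : ℝ, 0 ≤ s → 0 ≤ t → μ (s + t) = μ s * μ t)
    (hn : ∀ t : ℝ, 0 ≤ t → ‖μ t‖ ≤ 1)
    (hJ : ∀ t : ℝ, 0 < t → Tendsto (fun s => μ s * μ t) (𝓝[>] 0) (𝓝 (μ t))) :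
    ContinuousOn μ (Ioi 0) := by
  intro t₀ ht₀
  rw [mem_Ioi] at ht₀
  apply ContinuousAt.continuousWithinAt
  set q := t₀ / 2 with hq
  have hq0 : 0 < q := by positivity
  have key : ∀ s t : ℝ, q ≤ s → s < t → ‖μ t - μ s‖ ≤ ‖μ (t - s) * μ q - μ q‖ := by
    intro s t hs hst
    have h1 : μ t = μ (s - q) * (μ (t - s) * μ q) := by
      rw [← hadd _ _ (by linarith) hq0.le, ← hadd _ _ (by linarith) (by linarith)]
      congr 1
      ring
    have h2 : μ s = μ (s - q) * μ q := by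
      rw [← hadd _ _ (by linarith) hq0.le]
      congr 1
      ring
    rw [h1, h2, ← mul_sub]
    refine (norm_mul_le _ _).trans ?_
    exact mul_le_of_le_one_left (norm_nonneg _) (hn _ (by linarith))
  rw [Metric.continuousAt_iff]
  intro ε hε
  have h1 := Metric.tendsto_nhds.1 (hJ q hq0) ε hε
  rw [eventually_nhdsWithin_iff, Metric.eventually_nhds_iff] at h1
  obtain ⟨δ, hδ, h2⟩ := h1
  refine ⟨min δ q, lt_min hδ hq0, fun {t} ht => ?_⟩
  rw [Real.dist_eq] at ht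
  have ht1 : |t - t₀| < δ := ht.trans_le (min_le_left _ _)
  have ht2 : |t - t₀| < q := ht.trans_le (min_le_right _ _)
  rw [abs_lt] at ht1 ht2
  rcases lt_trichotomy t t₀ with h | h | h
  · rw [dist_comm, dist_eq_norm]
    refine (key t t₀ (by rw [hq] at ht2 ⊢; linarith) h).trans_lt ?_
    rw [← dist_eq_norm]
    apply h2
    · rw [Real.dist_eq, sub_zero, abs_of_pos (by linarith)]
      linarith
    · exact mem_Ioi.2 (by linarith)
  · rw [h, dist_self]
    exact hε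
  · rw [dist_eq_norm]
    refine (key t₀ t (by rw [hq]; linarith) h).trans_lt ?_
    rw [← dist_eq_norm]
    apply h2
    · rw [Real.dist_eq, sub_zero, abs_of_pos (by linarith)]
      linarith
    · exact mem_Ioi.2 (by linarith)

section

variable {A : Type u} {R : Type v} {M : Type w} [NonUnitalCStarAlgebra A]
  [NonUnitalCStarAlgebra R] [NonUnitalCStarAlgebra M] {D : Data A R M}

/-- operators on the dual space of `A` -/
abbrev BB (A : Type u) [NonUnitalCStarAlgebra A] := (A →L[ℂ] ℂ) →L[ℂ] (A →L[ℂ] ℂ)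

/-- convolution from the left -/
noncomputable def lam (D : Data A R M) (μ : A →L[ℂ] ℂ) : BB A :=
  (ContinuousLinearMap.compL ℂ A A ℂ μ).comp D.slice

lemma lam_apply (μ ν : A →L[ℂ] ℂ) : lam D μ ν = D.conv μ ν := rfl

lemma lam_add (μ ν : A →L[ℂ] ℂ) : lam D (μ + ν) = lam D μ + lam D ν := by
  unfold lam
  rw [map_add, ContinuousLinearMap.add_comp]

lemma lam_smul (c : ℂ) (μ : A →L[ℂ] ℂ) : lam D (c • μ) = c • lam D μ := by
  unfold lam
  rw [map_smul, ContinuousLinearMap.smul_comp]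

lemma lam_zero : lam D 0 = 0 := by
  unfold lam
  rw [map_zero, ContinuousLinearMap.zero_comp]

lemma lam_sub (μ ν : A →L[ℂ] ℂ) : lam D (μ - ν) = lam D μ - lam D ν := by
  unfold lam
  rw [map_sub, ContinuousLinearMap.sub_comp]

lemma lam_ε (h : D.IsDual) (μ : A →L[ℂ] ℂ) : lam D μ D.ε = μ := h.conv_ε μ

lemma norm_lam (h : D.IsDual) (μ : A →L[ℂ] ℂ) : ‖lam D μ‖ = ‖μ‖ := by
  apply le_antisymm
  · refine ContinuousLinearMap.opNorm_le_bound _ (norm_nonneg _) fun ν => ?_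
    exact (ContinuousLinearMap.opNorm_comp_le _ _).trans
      (mul_le_mul_of_nonneg_left (h.norm_slice ν) (norm_nonneg _))
  · have h1 := (lam D μ).le_opNorm D.ε
    rw [lam_ε h, h.ε_state.2, mul_one] at h1
    exact h1

lemma isom (h : D.IsDual) : Isometry (lam D) :=
  Isometry.of_dist_eq fun x y => by rw [dist_eq_norm, dist_eq_norm, ← lam_sub, norm_lam h]

lemma lam_mul (h : D.IsDual) (μ ν : A →L[ℂ] ℂ) : lam D μ * lam D ν = lam D (D.conv μ ν) := by
  apply ContinuousLinearMap.ext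
  intro ρ
  exact (h.assoc μ ν ρ).symm

lemma lam_one (h : D.IsDual) : lam D D.ε = 1 := by
  apply ContinuousLinearMap.ext
  intro ρ
  exact h.ε_conv ρ

lemma real_smul (r : ℝ) (T : BB A) : (r • T : BB A) = (r : ℂ) • T := by
  apply ContinuousLinearMap.ext
  intro ρ
  apply ContinuousLinearMap.ext
  intro a
  simp

lemma real_smul' (r : ℝ) (μ : A →L[ℂ] ℂ) : r • μ = (r : ℂ) • μ := by
  apply ContinuousLinearMap.ext
  intro a
  simp

lemma closed_states : IsClosed {μ : A →L[ℂ] ℂ | IsState μ} := by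
  have h1 : {μ : A →L[ℂ] ℂ | IsState μ} =
      (⋂ a : A, {μ : A →L[ℂ] ℂ | 0 ≤ μ (star a * a)}) ∩ {μ | ‖μ‖ = 1} := by
    ext μ
    simp [IsState]
  rw [h1]
  refine IsClosed.inter (isClosed_iInter fun a => ?_) ?_
  · have h2 : Continuous fun μ : A →L[ℂ] ℂ => μ (star a * a) :=
      (ContinuousLinearMap.apply ℂ ℂ (star a * a)).continuous
    exact isClosed_Ici.preimage h2
  · exact isClosed_eq continuous_norm continuous_const

lemma inL1_add {ρ σ : A →L[ℂ] ℂ} (h1 : D.InL1 ρ) (h2 : D.InL1 σ) : D.InL1 (ρ + σ) := by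
  obtain ⟨ω, hω, rfl⟩ := h1
  obtain ⟨τ, hτ, rfl⟩ := h2
  exact ⟨ω + τ, add_mem hω hτ, by rw [ContinuousLinearMap.add_comp]⟩

lemma inL1_smul (c : ℂ) {ρ : A →L[ℂ] ℂ} (h1 : D.InL1 ρ) : D.InL1 (c • ρ) := by
  obtain ⟨ω, hω, rfl⟩ := h1
  exact ⟨c • ω, D.normal.smul_mem c hω, by rw [ContinuousLinearMap.smul_comp]⟩

lemma inL1_zero : D.InL1 0 := ⟨0, D.normal.zero_mem, by rw [ContinuousLinearMap.zero_comp]⟩

/-- the image of `L¹` -/
noncomputable def JJ (D : Data A R M) : Submodule ℝ (BB A) where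
  carrier := {T | ∃ ρ, D.InL1 ρ ∧ T = lam D ρ}
  add_mem' := by
    rintro _ _ ⟨ρ, h1, rfl⟩ ⟨σ, h2, rfl⟩
    exact ⟨ρ + σ, inL1_add h1 h2, (lam_add _ _).symm⟩
  zero_mem' := ⟨0, inL1_zero, lam_zero.symm⟩
  smul_mem' := by
    rintro c _ ⟨ρ, h1, rfl⟩
    exact ⟨(c : ℂ) • ρ, inL1_smul _ h1, by rw [real_smul, lam_smul]⟩

lemma ctx (h : D.IsDual) (hc : Convex ℝ {μ : A →L[ℂ] ℂ | IsState μ})
    {ω : ℕ → A →L[ℂ] ℂ} (hω : ∀ n, IsState (ω n) ∧ D.InL1 (ω n))
    (hb : ∀ ρ : A →L[ℂ] ℂ, D.InL1 ρ → Tendsto (fun n => D.conv (ω n) ρ) atTop (𝓝 ρ) ∧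
      Tendsto (fun n => D.conv ρ (ω n)) atTop (𝓝 ρ)) :
    Ctx (lam D '' {μ : A →L[ℂ] ℂ | IsState μ}) (JJ D) (fun n => lam D (ω n)) where
  closedS := (isom h).isClosedEmbedding.isClosedMap _ closed_states
  convexS := by
    rintro _ ⟨μ, h1, rfl⟩ _ ⟨ν, h2, rfl⟩ a b ha hb hab
    refine ⟨a • μ + b • ν, hc h1 h2 ha hb hab, ?_⟩
    rw [lam_add, real_smul', real_smul', lam_smul, lam_smul, real_smul, real_smul]
  oneS := ⟨D.ε, h.ε_state, lam_one h⟩
  mulS := by
    rintro _ ⟨μ, h1, rfl⟩ _ ⟨ν, h2, rfl⟩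
    exact ⟨D.conv μ ν, h.state_conv μ ν h1 h2, (lam_mul h μ ν).symm⟩
  normS := by
    rintro _ ⟨μ, h1, rfl⟩
    rw [norm_lam h]
    exact h1.2.le
  closedJ := by
    have h1 : ((JJ D : Submodule ℝ (BB A)) : Set (BB A)) = lam D '' {ρ | D.InL1 ρ} := by
      ext T
      constructor
      · rintro ⟨ρ, h1, rfl⟩
        exact ⟨ρ, h1, rfl⟩
      · rintro ⟨ρ, h1, rfl⟩
        exact ⟨ρ, h1, rfl⟩
    rw [h1]
    exact (isom h).isClosedEmbedding.isClosedMap _ h.closed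
  mulJ := by
    rintro _ ⟨μ, h1, rfl⟩ _ ⟨ν, h2, rfl⟩
    exact ⟨D.conv μ ν, (h.ideal μ ν h2).1, lam_mul h μ ν⟩
  ωS := fun n => ⟨ω n, (hω n).1, rfl⟩
  ωJ := fun n => ⟨ω n, (hω n).2, rfl⟩
  left := by
    rintro _ ⟨ρ, h1, rfl⟩
    simp only [lam_mul h]
    exact ((isom h).continuous.tendsto ρ).comp (hb ρ h1).1
  right := by
    rintro _ ⟨ρ, h1, rfl⟩
    simp only [lam_mul h]
    exact ((isom h).continuous.tendsto ρ).comp (hb ρ h1).2

/-- existence of the semigroup -/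
theorem exists_semigroup (h : D.IsDual) (hc : Convex ℝ {μ : A →L[ℂ] ℂ | IsState μ})
    (hco : D.CoAmenable) : ∃ μ : ℝ → A →L[ℂ] ℂ, D.IsSemigroup μ ∧
      (∀ t : ℝ, 0 < t → D.InL1 (μ t)) ∧ ContinuousOn μ (Ioi 0) := by
  obtain ⟨ω, hω, hb⟩ := h.bai hco
  have hnt : Nontrivial (A →L[ℂ] ℂ) := by
    refine ⟨⟨D.ε, 0, fun h0 => ?_⟩⟩
    have h1 := h.ε_state.2
    rw [h0, norm_zero] at h1
    exact zero_ne_one h1
  obtain ⟨T, hT0, hTadd, hTS, hTJ, hTc⟩ := main (ctx h hc hω hb)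
  set μ : ℝ → A →L[ℂ] ℂ := fun t => T t D.ε with hμ
  have hTμ : ∀ t : ℝ, 0 ≤ t → IsState (μ t) ∧ T t = lam D (μ t) := by
    intro t ht
    obtain ⟨ρ, h1, h2⟩ := hTS t ht
    have h3 : μ t = ρ := by
      rw [hμ]
      simp only
      rw [← h2, lam_ε h]
    rw [h3]
    exact ⟨h1, h2.symm⟩
  have hL1 : ∀ t : ℝ, 0 < t → D.InL1 (μ t) := by
    intro t ht
    obtain ⟨ρ, h1, h2⟩ := hTJ t ht
    have h3 : μ t = ρ := by
      rw [hμ]
      simp only
      rw [h2, lam_ε h]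
    rw [h3]
    exact h1
  have hadd : ∀ s t : ℝ, 0 ≤ s → 0 ≤ t → D.conv (μ s) (μ t) = μ (s + t) := by
    intro s t hs ht
    have h1 := hTadd s t hs ht
    rw [(hTμ s hs).2, (hTμ t ht).2, lam_mul h, (hTμ (s + t) (add_nonneg hs ht)).2] at h1
    exact ((isom h).injective h1).symm
  have hzero : μ 0 = D.ε := by
    rw [hμ]
    simp only
    rw [hT0]
    rfl
  -- continuity at `0` on `L¹`
  have hc0 : ∀ ρ : A →L[ℂ] ℂ, D.InL1 ρ → Tendsto (fun t => D.conv (μ t) ρ) (𝓝[>] 0) (𝓝 ρ) := by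
    intro ρ hρ
    have h1 := hTc (lam D ρ) ⟨ρ, hρ, rfl⟩
    have h2 : Tendsto (fun t => lam D (D.conv (μ t) ρ)) (𝓝[>] 0) (𝓝 (lam D ρ)) := by
      refine h1.congr' ?_
      filter_upwards [self_mem_nhdsWithin] with t ht
      rw [(hTμ t (le_of_lt ht)).2, lam_mul h]
    exact (isom h).isEmbedding.isInducing.tendsto_nhds_iff.2 h2
  -- norm continuity at positive times
  have hTcont : ContinuousOn T (Ioi 0) := by
    refine cont_Ioi hTadd (fun t ht => ?_) (fun t ht => hTc _ (hTJ t ht))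
    rw [(hTμ t ht).2, norm_lam h]
    exact (hTμ t ht).1.2.le
  have hμcont : ContinuousOn μ (Ioi 0) := by
    have h1 : Continuous fun S : BB A => S D.ε :=
      (ContinuousLinearMap.apply ℂ (A →L[ℂ] ℂ) D.ε).continuous
    exact h1.comp_continuousOn hTcont
  -- weak* continuity at `0`
  have hw : ∀ a : A, Tendsto (fun t => μ t a) (𝓝[>] 0) (𝓝 (D.ε a)) := by
    have hgood : ∀ a : A, a ∈ Submodule.span ℂ {b : A | ∃ ρ : A →L[ℂ] ℂ, D.InL1 ρ ∧ ∃ a : A,
        b = D.slice ρ a} → Tendsto (fun t => μ t a) (𝓝[>] 0) (𝓝 (D.ε a)) := by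
      intro a ha
      induction ha using Submodule.span_induction with
      | mem b hb =>
        obtain ⟨ρ, hρ, a, rfl⟩ := hb
        have h1 : Continuous fun σ : A →L[ℂ] ℂ => σ a :=
          (ContinuousLinearMap.apply ℂ ℂ a).continuous
        have h2 := (h1.tendsto ρ).comp (hc0 ρ hρ)
        have h3 : D.ε (D.slice ρ a) = ρ a := by
          have h4 := h.ε_conv ρ
          exact congrArg (fun σ : A →L[ℂ] ℂ => σ a) h4
        rw [h3]
        exact h2
      | zero =>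
        simp only [map_zero]
        exact tendsto_const_nhds
      | add x y _ _ hx hy =>
        simp only [map_add]
        exact hx.add hy
      | smul c x _ hx =>
        simp only [map_smul]
        exact hx.const_smul c
    intro a
    rw [Metric.tendsto_nhds]
    intro ε hε
    obtain ⟨b, hb1, hb2⟩ := Metric.dense_iff.1 h.dense a (ε / 4) (by positivity)
    have h1 := Metric.tendsto_nhds.1 (hgood b hb2) (ε / 4) (by positivity)
    filter_upwards [h1, self_mem_nhdsWithin] with t ht1 ht2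
    have hst := (hTμ t (le_of_lt ht2)).1.2
    rw [Metric.mem_ball, dist_eq_norm] at hb1
    have h2 : dist (μ t a) (μ t b) ≤ ε / 4 := by
      rw [dist_eq_norm, ← map_sub]
      refine ((μ t).le_opNorm _).trans ?_
      rw [hst, one_mul, norm_sub_rev]
      exact hb1.le
    have h3 : dist (D.ε b) (D.ε a) ≤ ε / 4 := by
      rw [dist_eq_norm, ← map_sub]
      refine (D.ε.le_opNorm _).trans ?_
      rw [h.ε_state.2, one_mul]
      exact hb1.le
    calc dist (μ t a) (D.ε a) ≤ dist (μ t a) (μ t b) + dist (μ t b) (D.ε b) +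
          dist (D.ε b) (D.ε a) := dist_triangle4 _ _ _ _
      _ < ε := by linarith
  refine ⟨μ, ⟨fun t ht => (hTμ t ht).1, hzero, hadd, fun a => ?_⟩, hL1, hμcont⟩
  intro t ht
  rcases eq_or_lt_of_le (mem_Ici.1 ht) with h0 | h0
  · subst h0
    have h1 : ContinuousWithinAt (fun t => μ t a) (Ioi 0) 0 := by
      unfold ContinuousWithinAt
      simp only [hzero]
      exact hw a
    exact continuousWithinAt_Ioi_iff_Ici.1 h1
  · have h1 : ContinuousAt μ t := hμcont.continuousAt (Ioi_mem_nhds h0)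
    have h2 : Continuous fun σ : A →L[ℂ] ℂ => σ a :=
      (ContinuousLinearMap.apply ℂ ℂ a).continuous
    exact (h2.continuousAt.comp h1).continuousWithinAt

/-- the converse -/
theorem coAmenable_of (h : D.IsDual) {μ : ℝ → A →L[ℂ] ℂ} (hμ : D.IsSemigroup μ)
    (hL : ∀ t : ℝ, 0 < t → D.InL1 (μ t)) : D.CoAmenable := by
  have key : ∀ a : A, D.Λ a = 0 → a = 0 := by
    intro a ha
    have hv : ∀ ρ : A →L[ℂ] ℂ, D.InL1 ρ → ρ a = 0 := by
      rintro _ ⟨ω, -, rfl⟩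
      simp [ha]
    apply NormedSpace.eq_zero_of_forall_dual_eq_zero ℂ
    intro ν
    have h1 : ∀ t : ℝ, 0 < t → μ t (D.slice ν a) = 0 := by
      intro t ht
      exact hv _ (h.ideal ν (μ t) (hL t ht)).2
    have h2 : Tendsto (fun t => μ t (D.slice ν a)) (𝓝[>] 0) (𝓝 (μ 0 (D.slice ν a))) :=
      ((hμ.cont (D.slice ν a)) 0 (mem_Ici.2 le_rfl)).mono_left
        (nhdsWithin_mono _ Ioi_subset_Ici_self)
    have h3 : Tendsto (fun t => μ t (D.slice ν a)) (𝓝[>] 0) (𝓝 0) := by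
      refine tendsto_const_nhds.congr' ?_
      filter_upwards [self_mem_nhdsWithin] with t ht
      exact (h1 t ht).symm
    have h4 := tendsto_nhds_unique h2 h3
    rw [hμ.zero] at h4
    have h5 : D.ε (D.slice ν a) = ν a :=
      congrArg (fun σ : A →L[ℂ] ℂ => σ a) (h.ε_conv ν)
    rw [h5] at h4
    exact h4
  intro a b hab
  have h1 := key (a - b) (by rw [map_sub, hab, sub_self])
  exact sub_eq_zero.1 h1

end

end Pool.Agent.K3h48.QG
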